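import Mathlib
import Pool.Agent.H88.WCODefs
import Pool.Agent.H88.WCOMixing

/-!
# Every chaotic weighted composition operator on smooth functions is mixing
-/

namespace Pool.Agent.Results.MP_07ea7a_an.ChaoticMixing

open Pool.Agent.H88.WCO Set
open scoped ContDiff

/-- **Q1, answered affirmatively.** For every `d`, every open `Ω ⊆ ℝ^d`, every smooth weight
`w : Ω → 𝕂` (`𝕂 = ℝ` or `ℂ`) and every smooth `ψ : Ω → Ω`, if the weighted composition operator
`C_{w,ψ}` is chaotic on `C^∞(Ω, 𝕂)` then it is mixing. -/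
theorem result (𝕂 : Type) [RCLike 𝕂] (d : ℕ) (Ω : Set (EuclideanSpace ℝ (Fin d)))
    (hΩ : IsOpen Ω) (w : EuclideanSpace ℝ (Fin d) → 𝕂)
    (ψ : EuclideanSpace ℝ (Fin d) → EuclideanSpace ℝ (Fin d)) (hw : ContDiffOn ℝ ∞ w Ω)
    (hψ : ContDiffOn ℝ ∞ ψ Ω) (hm : MapsTo ψ Ω Ω)
    (hchaotic : IsChaotic (wco hw hψ hm)) : IsMixing (wco hw hψ hm) :=
  mixing_of_chaotic hΩ hw hψ hm hchaotic

end Pool.Agent.Results.MP_07ea7a_an.ChaoticMixing
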